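import Pool.Agent.Lib.MP_b9c5ac_co.Cyc

set_option autoImplicit false

namespace Pool.Agent.Lib.MP_b9c5ac_co

open SimpleGraph

/-- the indices of the three edges at a vertex -/
def vt (v : ℕ) : ℕ × ℕ × ℕ :=
  if v = 0 then (1, 2, 3) else if v < 94 then (v, 2 * v + 2, 2 * v + 3) else (v, 96 + v, 96 + sgi v)

/-- exclusive or of the values of a triple of edges -/
def x3 (val : ℕ → ℕ) (t : ℕ × ℕ × ℕ) : ℕ := Nat.xor (Nat.xor (val t.1) (val t.2.1)) (val t.2.2)

/-- exclusive or of the values of a list of edges -/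
def ev (val : ℕ → ℕ) : List ℕ → ℕ
  | [] => 0
  | i :: l => Nat.xor (val i) (ev val l)

/-- insert if absent, delete if present -/
def toggle (i : ℕ) (l : List ℕ) : List ℕ := if i ∈ l then l.erase i else i :: l

theorem ev_erase (val : ℕ → ℕ) (i : ℕ) : ∀ l : List ℕ, i ∈ l →
    ev val l = Nat.xor (val i) (ev val (l.erase i)) := by
  intro l
  induction l with
  | nil => intro h; simp at h
  | cons j l ih =>
    intro h
    by_cases hij : j = i
    · subst hij
      simp [ev]
    · have hi : i ∈ l := by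
        rcases List.mem_cons.1 h with h | h
        · exact absurd h.symm hij
        · exact h
      rw [List.erase_cons_tail (by simpa using hij)]
      simp only [ev]
      rw [ih hi]
      show val j ^^^ (val i ^^^ _) = val i ^^^ (val j ^^^ _)
      rw [← Nat.xor_assoc, Nat.xor_comm (val j), Nat.xor_assoc]

theorem ev_toggle (val : ℕ → ℕ) (i : ℕ) (l : List ℕ) :
    ev val (toggle i l) = Nat.xor (val i) (ev val l) := by
  unfold toggle
  split_ifs with h
  · rw [ev_erase val i l h]
    show _ = val i ^^^ (val i ^^^ _)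
    rw [← Nat.xor_assoc, Nat.xor_self, Nat.zero_xor]
  · rfl

/-- the edges leaving a list of vertices -/
def cutOf : List ℕ → List ℕ
  | [] => []
  | v :: S => toggle (vt v).1 (toggle (vt v).2.1 (toggle (vt v).2.2 (cutOf S)))

theorem ev_cutOf (val : ℕ → ℕ) (hv : ∀ v < 190, x3 val (vt v) = 0) : ∀ S : List ℕ,
    (∀ v ∈ S, v < 190) → ev val (cutOf S) = 0 := by
  intro S
  induction S with
  | nil => intro _; rfl
  | cons v S ih =>
    intro h
    have h1 := ih (fun w hw => h w (List.mem_cons_of_mem _ hw))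
    have h2 := hv v (h v List.mem_cons_self)
    simp only [cutOf]
    rw [ev_toggle, ev_toggle, ev_toggle, h1]
    unfold x3 at h2
    show val _ ^^^ (val _ ^^^ (val _ ^^^ 0)) = 0
    rw [Nat.xor_zero, ← Nat.xor_assoc]
    exact h2

/-- instructions of the exhaustive search: branch over the value of an edge, define the value of
an edge by the other two at a vertex, check a vertex -/
inductive Ins : Type
  | br (i : ℕ) : Ins
  | df (i j k : ℕ) : Ins
  | ck (i j k : ℕ) : Ins

/-- look up a value, `0` if absent -/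
def look (i : ℕ) : List (ℕ × ℕ) → ℕ
  | [] => 0
  | (j, a) :: l => cond (Nat.beq i j) a (look i l)

/-- the search: `true` if no assignment survives -/
def refute : List Ins → List (ℕ × ℕ) → Bool
  | [], _ => false
  | .br i :: r, env => refute r ((i, 1) :: env) && refute r ((i, 2) :: env) &&
      refute r ((i, 3) :: env)
  | .df i j k :: r, env =>
      !(Nat.beq (look j env) 0) && !(Nat.beq (look k env) 0) &&
      (match Nat.xor (look j env) (look k env) with
      | 0 => true
      | 1 => refute r ((i, 1) :: env)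
      | 2 => refute r ((i, 2) :: env)
      | 3 => refute r ((i, 3) :: env)
      | _ => false)
  | .ck i j k :: r, env =>
      !(Nat.beq (look i env) 0) && !(Nat.beq (look j env) 0) && !(Nat.beq (look k env) 0) &&
      (!(Nat.beq (Nat.xor (Nat.xor (look i env) (look j env)) (look k env)) 0) || refute r env)

/-- an instruction is valid for an assignment -/
def valid (val : ℕ → ℕ) : Ins → Prop
  | .br i => val i = 1 ∨ val i = 2 ∨ val i = 3
  | .df i j k => Nat.xor (val j) (val k) = val i ∧ (val i = 1 ∨ val i = 2 ∨ val i = 3)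
  | .ck i j k => Nat.xor (Nat.xor (val i) (val j)) (val k) = 0

/-- the environment agrees with the assignment -/
def good (val : ℕ → ℕ) (env : List (ℕ × ℕ)) : Prop := ∀ j, look j env ≠ 0 → look j env = val j

theorem good_cons {val : ℕ → ℕ} {env : List (ℕ × ℕ)} {i a : ℕ} (h : good val env)
    (ha : val i = a) : good val ((i, a) :: env) := by
  intro j hj
  simp only [look] at hj ⊢
  cases hb : Nat.beq j i with
  | true =>
    have : j = i := Nat.eq_of_beq_eq_true hb
    simp [this, ha]
  | false =>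
    rw [hb] at hj
    exact h j hj

theorem bne0 {a : ℕ} (h : (!(Nat.beq a 0)) = true) : a ≠ 0 := by
  rintro rfl
  simp at h

theorem refute_sound (val : ℕ → ℕ) : ∀ (l : List Ins) (env : List (ℕ × ℕ)),
    refute l env = true → (∀ x ∈ l, valid val x) → good val env → False := by
  intro l
  induction l with
  | nil => intro env h _ _; simp [refute] at h
  | cons x l ih =>
    intro env h hv hg
    have hx := hv x List.mem_cons_self
    have hl : ∀ y ∈ l, valid val y := fun y hy => hv y (List.mem_cons_of_mem _ hy)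
    cases x with
    | br i =>
      simp only [refute, Bool.and_eq_true] at h
      rcases hx with h1 | h1 | h1
      · exact ih _ h.1.1 hl (good_cons hg h1)
      · exact ih _ h.1.2 hl (good_cons hg h1)
      · exact ih _ h.2 hl (good_cons hg h1)
    | df i j k =>
      simp only [refute, Bool.and_eq_true] at h
      obtain ⟨⟨h1, h2⟩, h3⟩ := h
      have e1 := hg j (bne0 h1)
      have e2 := hg k (bne0 h2)
      obtain ⟨hx1, hx2⟩ := hx
      rw [e1, e2, hx1] at h3
      rcases hx2 with h4 | h4 | h4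
      · rw [h4] at h3; exact ih _ h3 hl (good_cons hg h4)
      · rw [h4] at h3; exact ih _ h3 hl (good_cons hg h4)
      · rw [h4] at h3; exact ih _ h3 hl (good_cons hg h4)
    | ck i j k =>
      simp only [refute, Bool.and_eq_true, Bool.or_eq_true] at h
      obtain ⟨⟨⟨h1, h2⟩, h3⟩, h4⟩ := h
      have e1 := hg i (bne0 h1)
      have e2 := hg j (bne0 h2)
      have e3 := hg k (bne0 h3)
      rcases h4 with h4 | h4
      · apply bne0 h4
        rw [e1, e2, e3]
        exact hx
      · exact ih _ h4 hl hg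

/-- the triple of an instruction occurs, up to order, in a list of triples -/
def occ (T : List (ℕ × ℕ × ℕ)) (i j k : ℕ) : Bool :=
  T.any fun t =>
    (Nat.beq t.1 i && Nat.beq t.2.1 j && Nat.beq t.2.2 k) ||
    (Nat.beq t.1 i && Nat.beq t.2.1 k && Nat.beq t.2.2 j) ||
    (Nat.beq t.1 j && Nat.beq t.2.1 i && Nat.beq t.2.2 k) ||
    (Nat.beq t.1 j && Nat.beq t.2.1 k && Nat.beq t.2.2 i) ||
    (Nat.beq t.1 k && Nat.beq t.2.1 i && Nat.beq t.2.2 j) ||
    (Nat.beq t.1 k && Nat.beq t.2.1 j && Nat.beq t.2.2 i)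

/-- static check of an instruction -/
def okIns (T : List (ℕ × ℕ × ℕ)) : Ins → Bool
  | .br i => Nat.ble 1 i && Nat.ble i 287
  | .df i j k => Nat.ble 1 i && Nat.ble i 287 && occ T i j k
  | .ck i j k => occ T i j k

theorem xor_perm {a b c : ℕ} (h : Nat.xor (Nat.xor a b) c = 0) :
    Nat.xor (Nat.xor a c) b = 0 ∧ Nat.xor (Nat.xor b a) c = 0 ∧ Nat.xor (Nat.xor b c) a = 0 ∧
    Nat.xor (Nat.xor c a) b = 0 ∧ Nat.xor (Nat.xor c b) a = 0 := by
  have h' : (a ^^^ b) ^^^ c = 0 := h
  refine ⟨?_, ?_, ?_, ?_, ?_⟩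
  · show (a ^^^ c) ^^^ b = 0
    rw [Nat.xor_assoc, Nat.xor_comm c b, ← Nat.xor_assoc]; exact h'
  · show (b ^^^ a) ^^^ c = 0
    rw [Nat.xor_comm b a]; exact h'
  · show (b ^^^ c) ^^^ a = 0
    rw [Nat.xor_comm, ← Nat.xor_assoc]; exact h'
  · show (c ^^^ a) ^^^ b = 0
    rw [Nat.xor_assoc, Nat.xor_comm]; exact h'
  · show (c ^^^ b) ^^^ a = 0
    rw [Nat.xor_assoc, Nat.xor_comm b a, Nat.xor_comm]; exact h'

theorem occ_sound (val : ℕ → ℕ) (T : List (ℕ × ℕ × ℕ)) (hT : ∀ t ∈ T, x3 val t = 0)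
    (i j k : ℕ) (h : occ T i j k = true) : Nat.xor (Nat.xor (val i) (val j)) (val k) = 0 := by
  simp only [occ, List.any_eq_true, Bool.or_eq_true, Bool.and_eq_true, Nat.beq_eq] at h
  obtain ⟨t, ht, h⟩ := h
  have hx := hT t ht
  unfold x3 at hx
  obtain ⟨p1, p2, p3, p4, p5⟩ := xor_perm hx
  rcases h with (((((⟨⟨rfl, rfl⟩, rfl⟩ | ⟨⟨rfl, rfl⟩, rfl⟩) | ⟨⟨rfl, rfl⟩, rfl⟩) |
    ⟨⟨rfl, rfl⟩, rfl⟩) | ⟨⟨rfl, rfl⟩, rfl⟩) | ⟨⟨rfl, rfl⟩, rfl⟩)
  · exact hx
  · exact p1
  · exact p2
  · exact p4
  · exact p3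
  · exact p5

theorem okIns_sound (val : ℕ → ℕ) (hval : ∀ i, 1 ≤ i → i ≤ 287 → val i = 1 ∨ val i = 2 ∨ val i = 3)
    (T : List (ℕ × ℕ × ℕ)) (hT : ∀ t ∈ T, x3 val t = 0) (x : Ins) (h : okIns T x = true) :
    valid val x := by
  cases x with
  | br i =>
    simp only [okIns, Bool.and_eq_true] at h
    exact hval i (Nat.le_of_ble_eq_true h.1) (Nat.le_of_ble_eq_true h.2)
  | df i j k =>
    simp only [okIns, Bool.and_eq_true] at h
    refine ⟨?_, hval i (Nat.le_of_ble_eq_true h.1.1) (Nat.le_of_ble_eq_true h.1.2)⟩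
    have h1 := (xor_perm (occ_sound val T hT i j k h.2)).2.2.1
    exact Nat.xor_eq_zero_iff.1 h1
  | ck i j k =>
    exact occ_sound val T hT i j k h

theorem refute_main (val : ℕ → ℕ)
    (hval : ∀ i, 1 ≤ i → i ≤ 287 → val i = 1 ∨ val i = 2 ∨ val i = 3)
    (T : List (ℕ × ℕ × ℕ)) (hT : ∀ t ∈ T, x3 val t = 0) (prog : List Ins)
    (h1 : prog.all (okIns T) = true) (h2 : refute prog [] = true) : False :=
  refute_sound val prog [] h2
    (fun x hx => okIns_sound val hval T hT x (List.all_eq_true.1 h1 x hx))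
    (fun j hj => absurd rfl hj)

/-- vertices of superedge 1 -/
def E1 : List ℕ := [11, 24, 25, 50, 51, 52, 53, 102, 103, 104, 105, 106, 107, 108, 109, 111, 179, 183]
/-- search program for superedge 1 -/
def prog1 : List Ins := [.br 53, .br 108, .df 109 53 108, .br 204, .df 255 204 108, .br 25, .df 52 25 53, .br 106, .df
  107 106 52, .br 104, .df 200 104 204, .df 203 107 200, .br 51, .df 105 51 104, .br 24, .df 50
  24 51, .df 11 24 25, .br 111, .df 183 111 11, .df 279 183 203, .br 103, .df 199 103 279, .df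
  205 109 199, .df 201 105 205, .df 102 50 103, .br 198, .df 275 198 102, .df 207 111 198, .df
  202 106 207, .df 179 275 201]
theorem prog1_ok : prog1.all (okIns ((11, 111, 183) :: E1.map vt)) = true := by
  decide +kernel
theorem prog1_refute : refute prog1 [] = true := by decide +kernel
theorem E1_cut : cutOf E1 = [11, 202, 255, 111, 179, 183] := by decide +kernel

/-- vertices of superedge 2 -/
def E2 : List ℕ := [31, 33, 64, 65, 68, 69, 87, 130, 131, 132, 133, 138, 139, 140, 141, 176, 177, 187]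
/-- search program for superedge 2 -/
def prog2 : List Ins := [.br 141, .br 237, .df 227 141 237, .br 69, .df 140 69 141, .br 131, .df 235 131 227, .br 33,
  .df 68 33 69, .br 139, .df 273 139 235, .df 138 68 139, .br 31, .df 87 31 33, .br 64, .df 130
  64 131, .df 65 31 64, .br 176, .df 177 176 87, .df 229 177 273, .br 236, .df 226 236 140, .df
  133 229 236, .df 132 65 133, .df 283 130 226, .br 272, .df 234 272 176, .df 228 132 272, .df
  187 283 228, .df 268 138 234]
theorem prog2_ok : prog2.all (okIns ((31, 33, 87) :: E2.map vt)) = true := by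
  decide +kernel
theorem prog2_refute : refute prog2 [] = true := by decide +kernel
theorem E2_cut : cutOf E2 = [31, 33, 87, 268, 237, 187] := by decide +kernel

/-- a supervertex -/
def Sa : List ℕ := [1, 4, 5, 10, 12, 13, 22, 23, 26, 27, 28, 29, 44, 46, 47, 48, 49, 54, 55, 56, 57, 58, 59, 60,
  61, 90, 91, 94, 95, 96, 97, 98, 99, 100, 101, 110, 112, 113, 114, 115, 116, 117, 118, 119,
  120, 121, 122, 123, 124, 125, 182, 184, 185]
theorem Sa_cut : cutOf Sa = [1, 11, 44, 111, 183] := by decide +kernel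

/-- a supervertex -/
def Sb : List ℕ := [2, 6, 7, 14, 15, 16, 17, 30, 32, 34, 35, 36, 37, 42, 62, 63, 66, 67, 70, 71, 72, 73, 74, 75,
  76, 77, 86, 126, 127, 128, 129, 134, 135, 136, 137, 142, 143, 144, 145, 146, 147, 148, 149,
  150, 151, 152, 153, 154, 155, 156, 157, 174, 175]
theorem Sb_cut : cutOf Sb = [2, 31, 33, 42, 87] := by decide +kernel

/-- a supervertex -/
def Sc : List ℕ := [18, 38, 39, 43, 78, 79, 80, 81, 88, 89, 158, 159, 160, 161, 162, 163, 164, 165, 178, 180, 181]
theorem Sc_cut : cutOf Sc = [18, 43, 179, 255, 202] := by decide +kernel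

/-- a supervertex -/
def Sd : List ℕ := [19, 40, 41, 45, 82, 83, 84, 85, 92, 93, 166, 167, 168, 169, 170, 171, 172, 173, 186, 188, 189]
theorem Sd_cut : cutOf Sd = [19, 45, 187, 237, 268] := by decide +kernel

/-- triples of the Petersen graph left after contraction; `286`, `287` are the superedges -/
def PT : List (ℕ × ℕ × ℕ) := [(1, 2, 3), (3, 8, 9), (8, 18, 19), (9, 20, 21), (20, 42, 43), (21, 44, 45), (1, 44, 286), (2,
  42, 287), (18, 43, 286), (19, 45, 287)]
/-- search program for the Petersen graph -/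
def progP : List Ins := [.br 1, .br 2, .df 3 1 2, .br 42, .df 287 42 2, .br 44, .df 286 44 1, .br 19, .df 45 19 287,
  .df 21 44 45, .br 18, .df 43 18 286, .df 20 42 43, .df 8 18 19, .df 9 3 8, .ck 9 20 21]
theorem progP_ok : progP.all (okIns PT) = true := by decide +kernel
theorem progP_refute : refute progP [] = true := by decide +kernel

theorem small_xor {a b c : ℕ} (ha : a = 1 ∨ a = 2 ∨ a = 3) (hb : b = 1 ∨ b = 2 ∨ b = 3)
    (hc : c = 1 ∨ c = 2 ∨ c = 3) (h : Nat.xor (Nat.xor a b) c ≠ 0) :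
    Nat.xor (Nat.xor a b) c = 1 ∨ Nat.xor (Nat.xor a b) c = 2 ∨ Nat.xor (Nat.xor a b) c = 3 := by
  rcases ha with rfl | rfl | rfl <;> rcases hb with rfl | rfl | rfl <;>
    rcases hc with rfl | rfl | rfl <;> revert h <;> decide

theorem bits5 (x1 x11 x44 x111 x183 : ℕ) (h0 : x1 ^^^ (x11 ^^^ (x44 ^^^ (x111 ^^^ (x183 ^^^ (0))))) = 0) :
    (x1 ^^^ x44) ^^^ ((x11 ^^^ x111) ^^^ x183) = 0 := by
  apply Nat.eq_of_testBit_eq
  intro i
  have g0 := congrArg (fun n => Nat.testBit n i) h0
  clear h0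
  simp only [Nat.testBit_xor, Nat.zero_testBit] at g0 ⊢
  generalize x1.testBit i = y1 at *
  generalize x11.testBit i = y11 at *
  generalize x44.testBit i = y44 at *
  generalize x111.testBit i = y111 at *
  generalize x183.testBit i = y183 at *
  revert y1 y11 y44 y111 y183
  decide

theorem bits5' (x2 x31 x33 x42 x87 : ℕ) (h0 : x2 ^^^ (x31 ^^^ (x33 ^^^ (x42 ^^^ (x87 ^^^ (0))))) = 0) :
    (x2 ^^^ x42) ^^^ ((x31 ^^^ x33) ^^^ x87) = 0 := by
  apply Nat.eq_of_testBit_eq
  intro i
  have g0 := congrArg (fun n => Nat.testBit n i) h0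
  clear h0
  simp only [Nat.testBit_xor, Nat.zero_testBit] at g0 ⊢
  generalize x2.testBit i = y2 at *
  generalize x31.testBit i = y31 at *
  generalize x33.testBit i = y33 at *
  generalize x42.testBit i = y42 at *
  generalize x87.testBit i = y87 at *
  revert y2 y31 y33 y42 y87
  decide

theorem bits8 (x18 x43 x179 x255 x202 x11 x111 x183 : ℕ) (h0 : x18 ^^^ (x43 ^^^ (x179 ^^^ (x255 ^^^ (x202 ^^^ (0))))) = 0) (h1 : x11 ^^^ (x202 ^^^ (x255 ^^^ (x111 ^^^ (x179 ^^^ (x183 ^^^ (0)))))) = 0) :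
    (x18 ^^^ x43) ^^^ ((x11 ^^^ x111) ^^^ x183) = 0 := by
  apply Nat.eq_of_testBit_eq
  intro i
  have g0 := congrArg (fun n => Nat.testBit n i) h0
  clear h0
  have g1 := congrArg (fun n => Nat.testBit n i) h1
  clear h1
  simp only [Nat.testBit_xor, Nat.zero_testBit] at g0 g1 ⊢
  generalize x18.testBit i = y18 at *
  generalize x43.testBit i = y43 at *
  generalize x179.testBit i = y179 at *
  generalize x255.testBit i = y255 at *
  generalize x202.testBit i = y202 at *
  generalize x11.testBit i = y11 at *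
  generalize x111.testBit i = y111 at *
  generalize x183.testBit i = y183 at *
  revert y18 y43 y179 y255 y202 y11 y111 y183
  decide

theorem bits8' (x19 x45 x187 x237 x268 x31 x33 x87 : ℕ) (h0 : x19 ^^^ (x45 ^^^ (x187 ^^^ (x237 ^^^ (x268 ^^^ (0))))) = 0) (h1 : x31 ^^^ (x33 ^^^ (x87 ^^^ (x268 ^^^ (x237 ^^^ (x187 ^^^ (0)))))) = 0) :
    (x19 ^^^ x45) ^^^ ((x31 ^^^ x33) ^^^ x87) = 0 := by
  apply Nat.eq_of_testBit_eq
  intro i
  have g0 := congrArg (fun n => Nat.testBit n i) h0
  clear h0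
  have g1 := congrArg (fun n => Nat.testBit n i) h1
  clear h1
  simp only [Nat.testBit_xor, Nat.zero_testBit] at g0 g1 ⊢
  generalize x19.testBit i = y19 at *
  generalize x45.testBit i = y45 at *
  generalize x187.testBit i = y187 at *
  generalize x237.testBit i = y237 at *
  generalize x268.testBit i = y268 at *
  generalize x31.testBit i = y31 at *
  generalize x33.testBit i = y33 at *
  generalize x87.testBit i = y87 at *
  revert y19 y45 y187 y237 y268 y31 y33 y87
  decide

theorem core (val0 : ℕ → ℕ) (h1 : ∀ i, 1 ≤ i → i ≤ 285 → val0 i = 1 ∨ val0 i = 2 ∨ val0 i = 3)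
    (h2 : ∀ v < 190, x3 val0 (vt v) = 0) : False := by
  have vt_le : ∀ v < 190, (1 ≤ (vt v).1 ∧ (vt v).1 ≤ 285) ∧ (1 ≤ (vt v).2.1 ∧ (vt v).2.1 ≤ 285) ∧
      (1 ≤ (vt v).2.2 ∧ (vt v).2.2 ≤ 285) := by
    intro v hv
    unfold vt
    by_cases h0 : v = 0
    · rw [if_pos h0]; simp
    · rw [if_neg h0]
      by_cases h9 : v < 94
      · rw [if_pos h9]; simp only; omega
      · rw [if_neg h9]
        have := sg_props v (by omega) hv
        simp only; omega
  -- extension by values at 286, 287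
  have ext : ∀ a b : ℕ, ∀ v < 190,
      x3 (fun i => if i = 286 then a else if i = 287 then b else val0 i) (vt v) = 0 := by
    intro a b v hv
    have h3 := vt_le v hv
    have h4 := h2 v hv
    unfold x3 at h4 ⊢
    simp only
    rw [if_neg (by omega), if_neg (by omega), if_neg (by omega), if_neg (by omega),
      if_neg (by omega), if_neg (by omega)]
    exact h4
  have extval : ∀ a b : ℕ, (a = 1 ∨ a = 2 ∨ a = 3) → (b = 1 ∨ b = 2 ∨ b = 3) →
      ∀ i, 1 ≤ i → i ≤ 287 →
      (fun i => if i = 286 then a else if i = 287 then b else val0 i) i = 1 ∨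
      (fun i => if i = 286 then a else if i = 287 then b else val0 i) i = 2 ∨
      (fun i => if i = 286 then a else if i = 287 then b else val0 i) i = 3 := by
    intro a b ha hb i hi hi'
    by_cases h : i = 286
    · simp only [h, if_true]; exact ha
    · by_cases h' : i = 287
      · simp only [h']; exact hb
      · simp only [h, h', if_false]; exact h1 i hi (by omega)
  have hE1 : ∀ v ∈ E1, v < 190 := by decide
  have hE2 : ∀ v ∈ E2, v < 190 := by decide
  -- the flows through the superedges are nonzero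
  have f1 : Nat.xor (Nat.xor (val0 11) (val0 111)) (val0 183) ≠ 0 := by
    intro h0
    refine refute_main _ (extval 1 1 (Or.inl rfl) (Or.inl rfl)) _ ?_ prog1 prog1_ok prog1_refute
    intro t ht
    rcases List.mem_cons.1 ht with rfl | ht
    · exact h0
    · obtain ⟨v, hv, rfl⟩ := List.mem_map.1 ht
      exact ext 1 1 v (hE1 v hv)
  have f2 : Nat.xor (Nat.xor (val0 31) (val0 33)) (val0 87) ≠ 0 := by
    intro h0
    refine refute_main _ (extval 1 1 (Or.inl rfl) (Or.inl rfl)) _ ?_ prog2 prog2_ok prog2_refute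
    intro t ht
    rcases List.mem_cons.1 ht with rfl | ht
    · exact h0
    · obtain ⟨v, hv, rfl⟩ := List.mem_map.1 ht
      exact ext 1 1 v (hE2 v hv)
  have cE1 := ev_cutOf val0 h2 E1 hE1
  have cE2 := ev_cutOf val0 h2 E2 hE2
  have cSa := ev_cutOf val0 h2 Sa (by decide)
  have cSb := ev_cutOf val0 h2 Sb (by decide)
  have cSc := ev_cutOf val0 h2 Sc (by decide)
  have cSd := ev_cutOf val0 h2 Sd (by decide)
  rw [E1_cut] at cE1
  rw [E2_cut] at cE2
  rw [Sa_cut] at cSa
  rw [Sb_cut] at cSb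
  rw [Sc_cut] at cSc
  rw [Sd_cut] at cSd
  simp only [ev] at cE1 cE2 cSa cSb cSc cSd
  have g1 := small_xor (h1 11 (by omega) (by omega)) (h1 111 (by omega) (by omega))
    (h1 183 (by omega) (by omega)) f1
  have g2 := small_xor (h1 31 (by omega) (by omega)) (h1 33 (by omega) (by omega))
    (h1 87 (by omega) (by omega)) f2
  refine refute_main _ (extval _ _ g1 g2) PT ?_ progP progP_ok progP_refute
  intro t ht
  simp only [PT, List.mem_cons, List.not_mem_nil, or_false] at ht
  rcases ht with rfl | rfl | rfl | rfl | rfl | rfl | rfl | rfl | rfl | rfl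
  · exact ext _ _ 0 (by omega)
  · exact ext _ _ 3 (by omega)
  · exact ext _ _ 8 (by omega)
  · exact ext _ _ 9 (by omega)
  · exact ext _ _ 20 (by omega)
  · exact ext _ _ 21 (by omega)
  · show (val0 1 ^^^ val0 44) ^^^ ((val0 11 ^^^ val0 111) ^^^ val0 183) = 0
    exact bits5 _ _ _ _ _ cSa
  · show (val0 2 ^^^ val0 42) ^^^ ((val0 31 ^^^ val0 33) ^^^ val0 87) = 0
    exact bits5' _ _ _ _ _ cSb
  · show (val0 18 ^^^ val0 43) ^^^ ((val0 11 ^^^ val0 111) ^^^ val0 183) = 0
    exact bits8 _ _ _ _ _ _ _ _ cSc cE1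
  · show (val0 19 ^^^ val0 45) ^^^ ((val0 31 ^^^ val0 33) ^^^ val0 87) = 0
    exact bits8' _ _ _ _ _ _ _ _ cSd cE2

theorem three_distinct : ∀ a b c : Fin 3, a ≠ b → a ≠ c → b ≠ c →
    Nat.xor (Nat.xor (a.val + 1) (b.val + 1)) (c.val + 1) = 0 := by decide

theorem vt_ei : ∀ v : Fin 190, (vt v).1 = ei v (n1 v) ∧ (vt v).2.1 = ei v (n2 v) ∧
    (vt v).2.2 = ei v (n3 v) := by decide +kernel

theorem not_colorable : ¬ G.lineGraph.Colorable 3 := by
  rintro ⟨C⟩
  -- value of an ordered pair
  classical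
  let cv : Fin 190 → Fin 190 → ℕ := fun u v =>
    if h : G.Adj u v then (C ⟨s(u, v), h⟩).val + 1 else 0
  have cv_symm : ∀ u v, cv u v = cv v u := by
    intro u v
    by_cases h : G.Adj u v
    · simp only [cv, dif_pos h, dif_pos h.symm]
      congr 3
      exact Subtype.ext Sym2.eq_swap
    · have h' : ¬ G.Adj v u := fun h' => h h'.symm
      simp only [cv, dif_neg h, dif_neg h']
  let val : ℕ → ℕ := fun i =>
    if h : ea i < 190 ∧ eb i < 190 then cv ⟨ea i, h.1⟩ ⟨eb i, h.2⟩ else 0
  have hval : ∀ u v : Fin 190, G.Adj u v → val (ei u v) = cv u v := by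
    intro u v h
    have hf := (ei_facts h).2.2.2
    rcases hf with ⟨h1, h2⟩ | ⟨h1, h2⟩
    · have : ea (ei u v) < 190 ∧ eb (ei u v) < 190 := by rw [h1, h2]; exact ⟨u.2, v.2⟩
      simp only [val, dif_pos this]
      have e1 : (⟨ea (ei u v), this.1⟩ : Fin 190) = u := Fin.ext h1
      have e2 : (⟨eb (ei u v), this.2⟩ : Fin 190) = v := Fin.ext h2
      rw [e1, e2]
    · have : ea (ei u v) < 190 ∧ eb (ei u v) < 190 := by rw [h1, h2]; exact ⟨v.2, u.2⟩
      simp only [val, dif_pos this]
      have e1 : (⟨ea (ei u v), this.1⟩ : Fin 190) = v := Fin.ext h1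
      have e2 : (⟨eb (ei u v), this.2⟩ : Fin 190) = u := Fin.ext h2
      rw [e1, e2, cv_symm]
  have hcv : ∀ u v : Fin 190, G.Adj u v → cv u v = 1 ∨ cv u v = 2 ∨ cv u v = 3 := by
    intro u v h
    simp only [cv, dif_pos h]
    have := (C ⟨s(u, v), h⟩).2
    omega
  -- every index in range is the index of an edge
  have hidx : ∀ i, 1 ≤ i → i ≤ 285 → ∃ u v : Fin 190, G.Adj u v ∧ ei u v = i := by
    intro i hi hi'
    by_cases h : i < 190
    · have hne : (⟨i, h⟩ : Fin 190) ≠ 0 := by
        intro h'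
        have : i = 0 := congrArg Fin.val h'
        omega
      refine ⟨⟨i, h⟩, P ⟨i, h⟩, T_le_G (T_adj_P _ hne), ?_⟩
      show ei i (par i) = i
      unfold ei; rw [if_pos rfl]
    · have h94 : 94 ≤ i - 96 := by omega
      have hlt : i - 96 < 190 := by omega
      have hp := sg_props (i - 96) h94 hlt
      refine ⟨⟨i - 96, hlt⟩, ⟨sg (i - 96), hp.2.1⟩, ⟨?_, Or.inr (Or.inl rfl)⟩, ?_⟩
      · intro h'
        exact hp.2.2.2.2.2.2.1 (congrArg Fin.val h').symm
      · show ei (i - 96) (sg (i - 96)) = i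
        have h1 := par_lt94 (i - 96) hlt
        have h2 := par_lt94 (sg (i - 96)) hp.2.1
        unfold ei
        rw [if_neg (by omega), if_neg (by omega), if_pos rfl]
        omega
  apply core val
  · intro i hi hi'
    obtain ⟨u, v, h, rfl⟩ := hidx i hi hi'
    rw [hval u v h]
    exact hcv u v h
  · intro v hv
    have hvt := vt_ei ⟨v, hv⟩
    simp only at hvt
    unfold x3
    rw [hvt.1, hvt.2.1, hvt.2.2]
    let w : Fin 190 := ⟨v, hv⟩
    have a1 : G.Adj w (N1 w) := (adj_iff' w _).2 (Or.inl rfl)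
    have a2 : G.Adj w (N2 w) := (adj_iff' w _).2 (Or.inr (Or.inl rfl))
    have a3 : G.Adj w (N3 w) := (adj_iff' w _).2 (Or.inr (Or.inr rfl))
    have v1 := hval w (N1 w) a1
    have v2 := hval w (N2 w) a2
    have v3 := hval w (N3 w) a3
    simp only [cv, dif_pos a1] at v1
    simp only [cv, dif_pos a2] at v2
    simp only [cv, dif_pos a3] at v3
    change val (ei v (n1 v)) = _ at v1
    change val (ei v (n2 v)) = _ at v2
    change val (ei v (n3 v)) = _ at v3
    rw [v1, v2, v3]
    have adjL : ∀ (x y : Fin 190) (hx : G.Adj w x) (hy : G.Adj w y), x ≠ y →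
        C ⟨s(w, x), hx⟩ ≠ C ⟨s(w, y), hy⟩ := by
      intro x y hx hy hxy
      apply C.valid
      rw [SimpleGraph.lineGraph_adj_iff_exists]
      refine ⟨?_, w, by simp, by simp⟩
      intro h
      have h' : s(w, x) = s(w, y) := congrArg Subtype.val h
      rw [Sym2.congr_right] at h'
      exact hxy h'
    exact three_distinct _ _ _ (adjL _ _ a1 a2 (N12 w)) (adjL _ _ a1 a3 (N13 w))
      (adjL _ _ a2 a3 (N23 w))

end Pool.Agent.Lib.MP_b9c5ac_co
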