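import Pool.Agent.Lib.MP_b9c5ac_co.Data

set_option autoImplicit false

namespace Pool.Agent.Lib.MP_b9c5ac_co

open SimpleGraph

/-- natural numbers, with exclusive or as addition -/
def X : Type := ℕ

instance : Zero X := ⟨(0 : ℕ)⟩
instance : Add X := ⟨fun a b => Nat.xor a b⟩
instance : Neg X := ⟨fun a => a⟩

instance : AddCommGroup X where
  add_assoc a b c := Nat.xor_assoc a b c
  zero_add a := Nat.zero_xor a
  add_zero a := Nat.xor_zero a
  add_comm a b := Nat.xor_comm a b
  neg_add_cancel a := Nat.xor_self a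
  nsmul := nsmulRec
  zsmul := zsmulRec

theorem X_add_self (a : X) : a + a = 0 := Nat.xor_self a

/-- If the values around every vertex add up to zero, so do the values across every cut. -/
theorem cut_sum {V : Type*} [Fintype V] [DecidableEq V] (H : SimpleGraph V) [DecidableRel H.Adj]
    (x : V → V → X)
    (hs : ∀ u v, H.Adj u v → x u v = x v u)
    (hx : ∀ v, ∑ w ∈ Finset.univ.filter (fun w => H.Adj v w), x v w = 0) (S : Finset V) :
    ∑ p ∈ (S ×ˢ Sᶜ).filter (fun p => H.Adj p.1 p.2), x p.1 p.2 = 0 := by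
  have h1 : ∑ v ∈ S, ∑ w ∈ Finset.univ.filter (fun w => H.Adj v w), x v w = 0 :=
    Finset.sum_eq_zero (fun v _ => hx v)
  have h2 : ∑ p ∈ (S ×ˢ S).filter (fun p => H.Adj p.1 p.2), x p.1 p.2 = 0 := by
    apply Finset.sum_involution (fun p _ => (p.2, p.1))
    · intro p hp
      rw [Finset.mem_filter] at hp
      show x p.1 p.2 + x p.2 p.1 = 0
      rw [hs p.1 p.2 hp.2]
      exact X_add_self _
    · intro p hp _ h
      rw [Finset.mem_filter] at hp
      have : p.2 = p.1 := congrArg Prod.fst h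
      exact hp.2.ne this.symm
    · intro p hp
      rw [Finset.mem_filter, Finset.mem_product] at hp ⊢
      exact ⟨⟨hp.1.2, hp.1.1⟩, hp.2.symm⟩
    · intro p hp
      rfl
  have h3 : ∑ v ∈ S, ∑ w ∈ Finset.univ.filter (fun w => H.Adj v w), x v w
      = ∑ p ∈ (S ×ˢ S).filter (fun p => H.Adj p.1 p.2), x p.1 p.2
        + ∑ p ∈ (S ×ˢ Sᶜ).filter (fun p => H.Adj p.1 p.2), x p.1 p.2 := by
    rw [Finset.sum_filter, Finset.sum_filter, Finset.sum_product, Finset.sum_product,
      ← Finset.sum_add_distrib]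
    apply Finset.sum_congr rfl
    intro v _
    rw [Finset.sum_filter, ← Finset.sum_add_sum_compl S]
  rw [h1, h2, zero_add] at h3
  exact h3.symm

end Pool.Agent.Lib.MP_b9c5ac_co
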