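import Mathlib

set_option autoImplicit false

/-! The graph on 190 vertices: a complete tree of depth six in heap numbering together with a
2-factor on its 96 leaves. -/

namespace Pool.Agent.Lib.MP_b9c5ac_co

/-- parent in the tree: `0` is the root, its children are `1,2,3`, and the children of
`v` with `1 ≤ v ≤ 93` are `2v+2, 2v+3` -/
def par (v : ℕ) : ℕ := if v ≤ 3 then 0 else (v - 2) / 2

/-- table of the successor permutation on the leaves `94..189` -/
def SGT : ℕ := 0x913524c247c4808f084405a9902a96b24dfbd7274fa95a1c1af107456ca10d07cc1ebc72c5929748d5d1949d2d266ed135a7757ae7ee1a37b068b9838403960c0c099047465b162acc6aa347912768d942a78284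

/-- table of the predecessor permutation on the leaves -/
def SGIT : ℕ := 0x992d34a201869f87185c74eb183c9126f5c9ebe6dfae320428b5a25446edcb854cdba240fd42156d5b3a4a929ce6341a3e5d496dd64a5ed1b40891b0a78a1c3a601840f6c41a13045111e3acd5325c0802c4cad8

/-- successor of a leaf on its cycle of leaf-leaf edges (a non-leaf is sent to itself) -/
def sg (v : ℕ) : ℕ := if v < 94 then v else 94 + (SGT >>> (7 * (v - 94))) % 128

/-- predecessor of a leaf on its cycle of leaf-leaf edges -/
def sgi (v : ℕ) : ℕ := if v < 94 then v else 94 + (SGIT >>> (7 * (v - 94))) % 128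

theorem sg_props : ∀ v, 94 ≤ v → v < 190 → 94 ≤ sg v ∧ sg v < 190 ∧ 94 ≤ sgi v ∧ sgi v < 190 ∧
    sg (sgi v) = v ∧ sgi (sg v) = v ∧ sg v ≠ v ∧ sgi v ≠ v ∧ sg v ≠ sgi v := by
  have h : ∀ i : Fin 96, 94 ≤ sg (94 + i) ∧ sg (94 + i) < 190 ∧ 94 ≤ sgi (94 + i) ∧
      sgi (94 + i) < 190 ∧ sg (sgi (94 + i)) = 94 + i ∧ sgi (sg (94 + i)) = 94 + i ∧
      sg (94 + i) ≠ 94 + i ∧ sgi (94 + i) ≠ 94 + i ∧ sg (94 + i) ≠ sgi (94 + i) := by
    decide +kernel
  intro v h1 h2
  have := h ⟨v - 94, by omega⟩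
  simp only [show 94 + (v - 94) = v by omega] at this
  exact this

/-- The tree. -/
def T : SimpleGraph (Fin 190) where
  Adj u v := u ≠ v ∧ (v.val = par u ∨ u.val = par v)
  symm := ⟨by rintro u v ⟨h, h' | h'⟩ <;> exact ⟨h.symm, by tauto⟩⟩
  loopless := ⟨fun u h => h.1 rfl⟩

/-- The graph. -/
def G : SimpleGraph (Fin 190) where
  Adj u v := u ≠ v ∧ ((v.val = par u ∨ u.val = par v) ∨ (v.val = sg u ∨ u.val = sg v))
  symm := ⟨by rintro u v ⟨h, h'⟩; exact ⟨h.symm, by tauto⟩⟩
  loopless := ⟨fun u h => h.1 rfl⟩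

theorem T_le_G : T ≤ G := fun _ _ h => ⟨h.1, Or.inl h.2⟩

/-- first neighbour -/
def n1 (v : ℕ) : ℕ := if v = 0 then 1 else par v
/-- second neighbour -/
def n2 (v : ℕ) : ℕ := if v < 94 then 2 * v + 2 else sg v
/-- third neighbour -/
def n3 (v : ℕ) : ℕ := if v < 94 then 2 * v + 3 else sgi v

theorem par_lt (v : ℕ) (h : 1 ≤ v) : par v < v := by
  unfold par; split <;> omega

theorem n_props (v : ℕ) (hv : v < 190) : n1 v < 190 ∧ n2 v < 190 ∧ n3 v < 190 ∧ n1 v ≠ n2 v ∧
    n1 v ≠ n3 v ∧ n2 v ≠ n3 v ∧ n1 v ≠ v ∧ n2 v ≠ v ∧ n3 v ≠ v := by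
  by_cases h : v < 94
  · unfold n1 n2 n3 par
    simp only [h, if_true]
    split_ifs <;> omega
  · have h1 := sg_props v (by omega) hv
    have h2 : par v < 94 := by unfold par; split_ifs <;> omega
    unfold n1 n2 n3
    rw [if_neg h, if_neg h, if_neg (by omega)]
    omega

theorem adj_iff (u v : Fin 190) : G.Adj u v ↔ v.val = n1 u ∨ v.val = n2 u ∨ v.val = n3 u := by
  obtain ⟨u, hu⟩ := u
  obtain ⟨v, hv⟩ := v
  have hn := n_props u hu
  simp only [G, ne_eq, Fin.mk.injEq]
  constructor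
  · rintro ⟨hne, (h | h) | (h | h)⟩
    · by_cases h0 : u = 0
      · subst h0; exfalso; apply hne; rw [h]; rfl
      · left; unfold n1; rw [if_neg h0]; exact h
    · -- u = par v
      have hv0 : v ≠ 0 := by
        rintro rfl
        apply hne; rw [h]; rfl
      unfold par at h
      unfold n1 n2 n3
      split_ifs at h ⊢ <;> omega
    · -- v = sg u
      by_cases h9 : u < 94
      · exfalso; apply hne; rw [h]; unfold sg; rw [if_pos h9]
      · right; left; unfold n2; rw [if_neg h9]; exact h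
    · -- u = sg v
      by_cases h9 : v < 94
      · exfalso; apply hne; rw [h]; unfold sg; rw [if_pos h9]
      · have hp := sg_props v (by omega) hv
        right; right; unfold n3
        rw [if_neg (by omega), h]; exact hp.2.2.2.2.2.1.symm
  · rintro (h | h | h)
    · refine ⟨by omega, ?_⟩
      by_cases h0 : u = 0
      · subst h0
        left; right
        have : v = 1 := by rw [h]; rfl
        rw [this]; rfl
      · left; left; unfold n1 at h; rw [if_neg h0] at h; exact h
    · refine ⟨by omega, ?_⟩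
      by_cases h9 : u < 94
      · left; right; unfold n2 at h; rw [if_pos h9] at h
        unfold par; split_ifs <;> omega
      · right; left; unfold n2 at h; rw [if_neg h9] at h; exact h
    · refine ⟨by omega, ?_⟩
      by_cases h9 : u < 94
      · left; right; unfold n3 at h; rw [if_pos h9] at h
        unfold par; split_ifs <;> omega
      · right; right; unfold n3 at h; rw [if_neg h9] at h
        have hp := sg_props u (by omega) hu
        rw [h]; exact hp.2.2.2.2.1.symm

/-- first neighbour, in `Fin 190` -/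
def N1 (v : Fin 190) : Fin 190 := ⟨n1 v, (n_props v v.2).1⟩
/-- second neighbour, in `Fin 190` -/
def N2 (v : Fin 190) : Fin 190 := ⟨n2 v, (n_props v v.2).2.1⟩
/-- third neighbour, in `Fin 190` -/
def N3 (v : Fin 190) : Fin 190 := ⟨n3 v, (n_props v v.2).2.2.1⟩

theorem adj_iff' (u v : Fin 190) : G.Adj u v ↔ v = N1 u ∨ v = N2 u ∨ v = N3 u := by
  rw [adj_iff, Fin.ext_iff, Fin.ext_iff, Fin.ext_iff]
  rfl

theorem N12 (v : Fin 190) : N1 v ≠ N2 v := by
  have := n_props v v.2; intro h; exact this.2.2.2.1 (Fin.ext_iff.1 h)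
theorem N13 (v : Fin 190) : N1 v ≠ N3 v := by
  have := n_props v v.2; intro h; exact this.2.2.2.2.1 (Fin.ext_iff.1 h)
theorem N23 (v : Fin 190) : N2 v ≠ N3 v := by
  have := n_props v v.2; intro h; exact this.2.2.2.2.2.1 (Fin.ext_iff.1 h)

theorem neighborSet_eq (v : Fin 190) : G.neighborSet v = {N1 v, N2 v, N3 v} := by
  ext w
  simp only [SimpleGraph.mem_neighborSet, adj_iff', Set.mem_insert_iff, Set.mem_singleton_iff]

theorem cubic (v : Fin 190) : (G.neighborSet v).ncard = 3 := by
  rw [neighborSet_eq, Set.ncard_eq_three]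
  exact ⟨_, _, _, N12 v, N13 v, N23 v, rfl⟩

end Pool.Agent.Lib.MP_b9c5ac_co
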