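import Mathlib

set_option autoImplicit false

/-! Definitions used by the statement: cyclic edge-connectivity, snarks, the trees `T_i` and
`T_i`-snarks. -/

namespace Pool.Agent.Lib.MP_b9c5ac_co

/-- `G` is cyclically `k`-edge-connected: no set `F` of fewer than `k` edges can be deleted to
leave two (different) components that each contain a cycle. -/
def CyclicallyEdgeConnected {V : Type*} (G : SimpleGraph V) (k : ℕ) : Prop :=
  ∀ F : Finset (Sym2 V), (F : Set (Sym2 V)) ⊆ G.edgeSet → F.card < k →
    ¬ ∃ C D : (G.deleteEdges (F : Set (Sym2 V))).ConnectedComponent,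
      C ≠ D ∧ ¬ C.toSimpleGraph.IsAcyclic ∧ ¬ D.toSimpleGraph.IsAcyclic

/-- `G` is a snark: cubic, cyclically `4`-edge-connected, of girth at least `5`, and without a
proper `3`-edge-colouring (a proper edge-colouring is a proper colouring of the line graph). -/
def IsSnark {V : Type*} (G : SimpleGraph V) : Prop :=
  (∀ v, (G.neighborSet v).ncard = 3) ∧ CyclicallyEdgeConnected G 4 ∧ 5 ≤ G.egirth ∧
    ¬ G.lineGraph.Colorable 3

/-- `T` is (a copy of) the tree `T_i`: a tree all of whose degrees are `1` or `3`, with a vertex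
of degree `3` that is at distance exactly `i` from every leaf. -/
def IsTreeT {V : Type*} (i : ℕ) (T : SimpleGraph V) : Prop :=
  T.IsTree ∧ (∀ v, (T.neighborSet v).ncard = 1 ∨ (T.neighborSet v).ncard = 3) ∧
    ∃ r, (T.neighborSet r).ncard = 3 ∧ ∀ v, (T.neighborSet v).ncard = 1 → T.dist r v = i

/-- `G` is a `T_i`-snark: a snark with a spanning tree that is a copy of `T_i`. -/
def IsTSnark {V : Type*} (i : ℕ) (G : SimpleGraph V) : Prop :=
  IsSnark G ∧ ∃ T : SimpleGraph V, T ≤ G ∧ IsTreeT i T

end Pool.Agent.Lib.MP_b9c5ac_co
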