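import Pool.Agent.Lib.MP_b9c5ac_co.Data

set_option autoImplicit false

namespace Pool.Agent.Lib.MP_b9c5ac_co

open SimpleGraph

/-- `far k a p c`: no non-backtracking walk of length at most `k` that starts in `c`, having
come from `p`, visits `a`. -/
def far : ℕ → ℕ → ℕ → ℕ → Bool
  | 0, a, _, c => !(Nat.beq c a)
  | k + 1, a, p, c => !(Nat.beq c a) && (Nat.beq (n1 c) p || far k a c (n1 c)) &&
      (Nat.beq (n2 c) p || far k a c (n2 c)) && (Nat.beq (n3 c) p || far k a c (n3 c))

theorem far_ne {k a p c : ℕ} (h : far k a p c = true) : c ≠ a := by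
  cases k with
  | zero =>
    simp only [far, Bool.not_eq_true'] at h
    intro h'; rw [h'] at h
    exact absurd (Nat.beq_refl a) (by rw [h]; simp)
  | succ k =>
    simp only [far, Bool.and_eq_true, Bool.not_eq_true'] at h
    intro h'; rw [h'] at h
    exact absurd (Nat.beq_refl a) (by rw [h.1.1.1]; simp)

theorem far_step {k a p c d : ℕ} (h : far (k + 1) a p c = true)
    (hd : d = n1 c ∨ d = n2 c ∨ d = n3 c) (hp : d ≠ p) : far k a c d = true := by
  simp only [far, Bool.and_eq_true, Bool.or_eq_true] at h
  have key : ∀ x : ℕ, (Nat.beq x p = true ∨ far k a c x = true) → x ≠ p → far k a c x = true := by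
    intro x hx hne
    rcases hx with hx | hx
    · exact absurd (Nat.eq_of_beq_eq_true hx) hne
    · exact hx
  rcases hd with rfl | rfl | rfl
  · exact key _ h.1.1.2 hp
  · exact key _ h.1.2 hp
  · exact key _ h.2 hp

theorem no_return (a : Fin 190) : ∀ (k : ℕ) (p c : Fin 190) (w : G.Walk c a), w.IsTrail →
    s(p, c) ∉ w.edges → w.length ≤ k → far k a p c = true → False := by
  intro k
  induction k with
  | zero =>
    intro p c w _ _ hl hf
    have := far_ne hf
    cases w with
    | nil => exact this rfl
    | cons h w' => simp at hl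
  | succ k ih =>
    intro p c w ht he hl hf
    cases w with
    | nil => exact far_ne hf rfl
    | @cons _ d _ h w' =>
      rw [SimpleGraph.Walk.isTrail_cons] at ht
      have hd := (adj_iff c d).1 h
      have hne : d.val ≠ p.val := by
        intro h'
        have : d = p := Fin.ext h'
        subst this
        apply he
        rw [SimpleGraph.Walk.edges_cons]
        rw [Sym2.eq_swap]
        exact List.mem_cons_self
      have hf' := far_step hf hd hne
      apply ih c d w' ht.1 ht.2 _ hf'
      rw [SimpleGraph.Walk.length_cons] at hl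
      omega

theorem far_all : ((List.range 190).all fun a => far 4 a a (n1 a) && far 4 a a (n2 a) &&
    far 4 a a (n3 a)) = true := by decide +kernel

theorem girth_ge : 6 ≤ G.egirth := by
  rw [SimpleGraph.le_egirth]
  intro a w hw
  by_contra hlt
  push Not at hlt
  have hlt' : w.length ≤ 5 := by
    have : (w.length : ℕ∞) < ((6 : ℕ) : ℕ∞) := by exact_mod_cast hlt
    have := Nat.cast_lt.1 this
    omega
  have hall := (List.all_eq_true.1 far_all) a (List.mem_range.2 a.2)
  simp only [Bool.and_eq_true] at hall
  cases w with
  | nil => exact hw.ne_nil rfl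
  | @cons _ d _ h w' =>
    have ht := hw.isTrail
    rw [SimpleGraph.Walk.isTrail_cons] at ht
    have hd := (adj_iff a d).1 h
    have hf : far 4 a a d = true := by
      rcases hd with h1 | h1 | h1 <;> rw [h1]
      · exact hall.1.1
      · exact hall.1.2
      · exact hall.2
    apply no_return a 4 a d w' ht.1 ht.2 _ hf
    rw [SimpleGraph.Walk.length_cons] at hlt'
    omega

end Pool.Agent.Lib.MP_b9c5ac_co
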