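import Pool.Agent.Lib.MP_b9c5ac_co.Defs
import Pool.Agent.Lib.MP_b9c5ac_co.Data

set_option autoImplicit false

namespace Pool.Agent.Lib.MP_b9c5ac_co

open SimpleGraph

/-- parent as an element of `Fin 190` -/
def P (v : Fin 190) : Fin 190 := ⟨par v, by
  have := v.2
  unfold par; split_ifs <;> omega⟩

theorem T_adj_P (v : Fin 190) (h : v ≠ 0) : T.Adj v (P v) := by
  have h1 : 1 ≤ v.val := by
    rcases Nat.eq_zero_or_pos v.val with h' | h'
    · exact absurd (Fin.ext h') h
    · exact h'
  have h2 := par_lt v h1
  refine ⟨?_, Or.inl rfl⟩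
  intro h3
  have h4 : v.val = par v := congrArg Fin.val h3
  omega

theorem T_reach (k : ℕ) : ∀ v : Fin 190, v.val ≤ k → T.Reachable v 0 := by
  induction k with
  | zero =>
    intro v hv
    have : v = 0 := Fin.ext (by simpa using hv)
    rw [this]
  | succ k ih =>
    intro v hv
    by_cases h : v = 0
    · rw [h]
    · have h1 : 1 ≤ v.val := by
        rcases Nat.eq_zero_or_pos v.val with h' | h'
        · exact absurd (Fin.ext h') h
        · exact h'
      have h2 := par_lt v h1
      exact (T_adj_P v h).reachable.trans (ih (P v) (by show par v ≤ k; omega))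

theorem T_connected : T.Connected := by
  have : Nonempty (Fin 190) := ⟨0⟩
  refine SimpleGraph.Connected.mk ?_
  intro u v
  exact (T_reach _ u le_rfl).trans (T_reach _ v le_rfl).symm

theorem G_connected : G.Connected := T_connected.mono T_le_G

theorem T_isTree : T.IsTree := by
  rw [SimpleGraph.isTree_iff_connected_and_card]
  refine ⟨T_connected, ?_⟩
  have h1 := T_connected.card_vert_le_card_edgeSet_add_one
  have h2 : T.edgeSet ⊆ (fun v : Fin 190 => s(v, P v)) '' {v | v ≠ 0} := by
    intro e
    induction e using Sym2.ind with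
    | _ u v =>
      intro h
      rw [SimpleGraph.mem_edgeSet] at h
      rcases h with ⟨hne, h | h⟩
      · refine ⟨u, ?_, ?_⟩
        · rintro rfl
          exact hne (Fin.ext (by rw [h]; rfl))
        · show s(u, P u) = s(u, v)
          have : P u = v := Fin.ext h.symm
          rw [this]
      · refine ⟨v, ?_, ?_⟩
        · rintro rfl
          exact hne (Fin.ext (by rw [h]; rfl))
        · show s(v, P v) = s(u, v)
          have : P v = u := Fin.ext h.symm
          rw [this, Sym2.eq_swap]
  have h3 : Nat.card T.edgeSet ≤ 189 := by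
    have h4 := Set.ncard_le_ncard h2 (Set.toFinite _)
    have h5 := Set.ncard_image_le (f := fun v : Fin 190 => s(v, P v)) (s := {v | v ≠ 0})
      (Set.toFinite _)
    have h6 : ({v | v ≠ 0} : Set (Fin 190)).ncard = 189 := by
      have : ({v | v ≠ 0} : Set (Fin 190)) = ({0} : Set (Fin 190))ᶜ := by ext; simp
      rw [this, Set.ncard_compl]
      simp
    rw [Nat.card_coe_set_eq]
    omega
  have h7 : Nat.card (Fin 190) = 190 := by simp
  omega

/-- level of a vertex -/
def lev (v : ℕ) : ℕ :=
  if v = 0 then 0 else if v ≤ 3 then 1 else if v ≤ 9 then 2 else if v ≤ 21 then 3 else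
  if v ≤ 45 then 4 else if v ≤ 93 then 5 else 6

theorem lev_par (v : ℕ) (h : 1 ≤ v) (h' : v < 190) : lev v = lev (par v) + 1 := by
  unfold lev par
  split_ifs <;> omega

theorem lev_adj {u v : Fin 190} (h : T.Adj u v) : lev v ≤ lev u + 1 := by
  rcases h with ⟨hne, h | h⟩
  · by_cases h0 : u.val = 0
    · exfalso; apply hne; apply Fin.ext; rw [h, h0]; rfl
    · have := lev_par u (by omega) u.2
      rw [h]; omega
  · by_cases h0 : v.val = 0
    · rw [h0]; unfold lev; simp
    · have := lev_par v (by omega) v.2
      rw [h]; omega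

theorem lev_walk {u v : Fin 190} (w : T.Walk u v) : lev v ≤ lev u + w.length := by
  induction w with
  | nil => simp
  | cons h p ih =>
    have := lev_adj h
    rw [SimpleGraph.Walk.length_cons]
    omega

theorem exists_walk (k : ℕ) : ∀ v : Fin 190, lev v = k → ∃ w : T.Walk v 0, w.length = k := by
  induction k with
  | zero =>
    intro v hv
    have : v = 0 := by
      apply Fin.ext
      unfold lev at hv
      split_ifs at hv with h
      exact h
    subst this
    exact ⟨SimpleGraph.Walk.nil, rfl⟩
  | succ k ih =>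
    intro v hv
    have hne : v ≠ 0 := by
      rintro rfl
      simp [lev] at hv
    have h1 : 1 ≤ v.val := by
      rcases Nat.eq_zero_or_pos v.val with h' | h'
      · exact absurd (Fin.ext h') hne
      · exact h'
    have h2 := lev_par v h1 v.2
    obtain ⟨w, hw⟩ := ih (P v) (by show lev (par v) = k; omega)
    exact ⟨SimpleGraph.Walk.cons (T_adj_P v hne) w, by simp [hw]⟩

theorem T_dist (v : Fin 190) : T.dist 0 v = lev v := by
  apply le_antisymm
  · obtain ⟨w, hw⟩ := exists_walk _ v rfl
    rw [← hw, SimpleGraph.dist_comm]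
    exact SimpleGraph.dist_le w
  · obtain ⟨w, hw⟩ := (T_connected.preconnected 0 v).exists_walk_length_eq_dist
    rw [← hw]
    have := lev_walk w
    have h0 : lev ((0 : Fin 190) : ℕ) = 0 := rfl
    omega

theorem T_nb_inner (v : Fin 190) (h : v.val < 94) : T.neighborSet v = {N1 v, N2 v, N3 v} := by
  ext w
  simp only [SimpleGraph.mem_neighborSet, Set.mem_insert_iff, Set.mem_singleton_iff]
  constructor
  · intro hw
    exact (adj_iff' v w).1 (T_le_G hw)
  · intro hw
    have hw' := (adj_iff' v w).2 hw
    refine ⟨hw'.1, ?_⟩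
    rcases hw'.2 with h1 | h1 | h1
    · exact h1
    · exfalso
      apply hw'.1
      apply Fin.ext
      rw [h1]; unfold sg; rw [if_pos h]
    · exfalso
      by_cases h9 : w.val < 94
      · apply hw'.1
        apply Fin.ext
        rw [h1]; unfold sg; rw [if_pos h9]
      · have := sg_props w (by omega) w.2
        omega

theorem T_nb_leaf (v : Fin 190) (h : 94 ≤ v.val) : T.neighborSet v = {P v} := by
  ext w
  simp only [SimpleGraph.mem_neighborSet, Set.mem_singleton_iff]
  constructor
  · rintro ⟨hne, hw | hw⟩
    · exact Fin.ext hw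
    · exfalso
      have := w.2
      have h1 : par w < 94 := by unfold par; split_ifs <;> omega
      omega
  · rintro rfl
    exact T_adj_P v (by rintro rfl; simp at h)

theorem T_deg_inner (v : Fin 190) (h : v.val < 94) : (T.neighborSet v).ncard = 3 := by
  rw [T_nb_inner v h, Set.ncard_eq_three]
  exact ⟨_, _, _, N12 v, N13 v, N23 v, rfl⟩

theorem T_deg_leaf (v : Fin 190) (h : 94 ≤ v.val) : (T.neighborSet v).ncard = 1 := by
  rw [T_nb_leaf v h, Set.ncard_singleton]

theorem T_isTreeT : IsTreeT 6 T := by
  refine ⟨T_isTree, ?_, 0, T_deg_inner 0 (by simp), ?_⟩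
  · intro v
    by_cases h : v.val < 94
    · exact Or.inr (T_deg_inner v h)
    · exact Or.inl (T_deg_leaf v (by omega))
  · intro v hv
    rw [T_dist]
    by_cases h : v.val < 94
    · rw [T_deg_inner v h] at hv
      omega
    · unfold lev
      split_ifs <;> omega

end Pool.Agent.Lib.MP_b9c5ac_co
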